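import Mathlib
import Pool.Agent.H13.IEOp

set_option autoImplicit false

namespace Pool.Agent.Results.MP_766cb7_co.NotBMatroid

open Set

/-- `f` is an IE-operator on `α`: extensive, monotone, idempotent, and (cl4'). -/
def IsIE {α : Type} (f : Set α → Set α) : Prop :=
  (∀ A, A ⊆ f A) ∧ (∀ A B, A ⊆ B → f A ⊆ f B) ∧ (∀ A, f (f A) = f A) ∧
  ∀ A B : Set α, ∀ q ∈ f B \ f (B \ A), ∃ a ∈ A, a ∈ f (insert q (B \ {a}))

/-- `A` is independent for `f`. -/
def Indep {α : Type} (f : Set α → Set α) (A : Set α) : Prop := ∀ a ∈ A, a ∉ f (A \ {a})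

/-- Condition (C). -/
def CondC {α : Type} (f : Set α → Set α) : Prop :=
  ∀ (B : Set α) (q : α), q ∈ f B →
    ∃ U : Set α, Minimal (fun W : Set α => W ⊆ B ∧ q ∈ f W) U ∧ Indep f U

/-- Condition (H). -/
def CondH {α : Type} (f : Set α → Set α) : Prop :=
  ∀ (B : Set α) (q : α), q ∉ f B →
    ∃ V : Set α, Maximal (fun W : Set α => B ⊆ W ∧ q ∉ f W) V ∧ f (insert q V) = Set.univ

/-- `B` is an `I`-basis of `A`: a maximal member of `I` contained in `A`. -/
def IsBasisOf {α : Type} (I : Set (Set α)) (A B : Set α) : Prop :=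
  Maximal (fun K : Set α => K ∈ I ∧ K ⊆ A) B

/-- `I` is a B-matroid on `α`. -/
structure IsBMatroid {α : Type} (I : Set (Set α)) : Prop where
  empty_mem : ∅ ∈ I
  down_closed : ∀ A ∈ I, ∀ B ⊆ A, B ∈ I
  ib1 : ∀ J ∈ I, ∀ A : Set α, J ⊆ A → ∃ B, IsBasisOf I A B ∧ J ⊆ B
  ib2 : ∀ A B₁ B₂ : Set α, IsBasisOf I A B₁ → IsBasisOf I A B₂ → ∀ a ∈ B₁ \ B₂,
    ∃ b ∈ B₂ \ B₁, IsBasisOf I A (insert b (B₁ \ {a}))

/-- The closure operator of a B-matroid. -/
def bclosure {α : Type} (I : Set (Set α)) (A : Set α) : Set α :=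
  A ∪ {e | ∃ J ∈ I, J ⊆ A ∧ insert e J ∉ I}

theorem result : ∃ f : Set (Fin 3 × ℕ) → Set (Fin 3 × ℕ), IsIE f ∧ CondC f ∧ CondH f ∧
    ¬ ∃ I : Set (Set (Fin 3 × ℕ)), IsBMatroid I ∧ ∀ A, bclosure I A = f A := by
  obtain ⟨Z, hZ1, hZ2, hZ3⟩ := Pool.Agent.H13.IEOp.exists_max
  have hZ : Pool.Agent.H13.IEOp.Fam Z := ⟨hZ1, hZ2, hZ3⟩
  refine ⟨Pool.Agent.H13.IEOp.f Z, ⟨Pool.Agent.H13.IEOp.f_ext,
    fun A B h => Pool.Agent.H13.IEOp.f_mono h, Pool.Agent.H13.IEOp.f_idem,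
    fun A B q hq => Pool.Agent.H13.IEOp.f_exch hZ A B q hq.1 hq.2⟩, ?_, ?_, ?_⟩
  · intro B q hq
    exact Pool.Agent.H13.IEOp.f_C hZ B q hq
  · intro B q hq
    obtain ⟨V, ⟨⟨h1, -, h2⟩, h3⟩, h4⟩ := Pool.Agent.H13.IEOp.f_H hZ B q hq
    exact ⟨V, ⟨⟨h1, h2⟩, fun W hW hVW => h3 ⟨hW.1, Set.subset_univ _, hW.2⟩ hVW⟩, h4⟩
  · rintro ⟨I, hI, hcl⟩
    have key : ∀ A : Set (Fin 3 × ℕ), A ∈ I ↔ ∀ a ∈ A, a ∉ Pool.Agent.H13.IEOp.f Z (A \ {a}) := by
      intro A
      constructor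
      · intro hA a ha hac
        rw [← hcl] at hac
        rcases hac with h | ⟨J, hJ, hJA, hJa⟩
        · exact h.2 rfl
        · exact hJa (hI.down_closed A hA _ (Set.insert_subset ha (hJA.trans Set.sdiff_subset)))
      · intro hA
        obtain ⟨J, hJ, -⟩ := hI.ib1 ∅ hI.empty_mem A (Set.empty_subset _)
        by_contra hAI
        have hne : ∃ a ∈ A, a ∉ J := by
          by_contra hc
          push Not at hc
          have : A = J := Set.Subset.antisymm hc hJ.prop.2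
          exact hAI (this ▸ hJ.prop.1)
        obtain ⟨a, ha, haJ⟩ := hne
        apply hA a ha
        rw [← hcl]
        right
        refine ⟨J, hJ.prop.1, fun x hx => ⟨hJ.prop.2 hx, by rintro rfl; exact haJ hx⟩, ?_⟩
        intro hin
        exact haJ (hJ.le_of_ge ⟨hin, Set.insert_subset ha hJ.prop.2⟩ (Set.subset_insert _ _)
          (Set.mem_insert _ _))
    have hJ : Pool.Agent.H13.IEOp.JJ ∈ I := by
      rw [key]
      intro e he hec
      rw [Pool.Agent.H13.IEOp.f_neg] at hec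
      · exact hec.2 rfl
      · intro h
        exact Pool.Agent.H13.IEOp.JJ_not_span hZ (h.mono Set.sdiff_subset)
    obtain ⟨K, hK, hJK⟩ := hI.ib1 _ hJ Pool.Agent.H13.IEOp.AA (fun x hx => Or.inl hx)
    obtain ⟨U, hU, hUA⟩ := Pool.Agent.H13.IEOp.AA_span hZ
    have hKs : Pool.Agent.H13.IEOp.Span Z K := by
      by_contra hns
      have hne : ∃ a ∈ Pool.Agent.H13.IEOp.AA, a ∉ K := by
        by_contra hc
        push Not at hc
        exact hns ⟨U, hU, hUA.trans hc⟩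
      obtain ⟨a, haA, haK⟩ := hne
      apply haK
      refine hK.le_of_ge ⟨?_, Set.insert_subset haA hK.prop.2⟩ (Set.subset_insert _ _)
        (Set.mem_insert _ _)
      rw [key]
      intro x hx hxf
      have hns' : ¬ Pool.Agent.H13.IEOp.Span Z (insert a K \ {x}) := by
        rintro ⟨B, hB, hBs⟩
        rcases hx with rfl | hx
        · exact hns ⟨B, hB, fun y hy => (hBs hy).1.resolve_left (hBs hy).2⟩
        · have haB : a ∈ B := by
            by_contra haB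
            exact hns ⟨B, hB, fun y hy => (hBs hy).1.resolve_left (by rintro rfl; exact haB hy)⟩
          have hxB : x ∉ B := fun h => (hBs h).2 rfl
          refine hns ⟨_, Pool.Agent.H13.IEOp.base_exch hZ hB haB hxB, ?_⟩
          apply Set.insert_subset hx
          rintro y ⟨hy, hya⟩
          exact (hBs hy).1.resolve_left hya
      rw [Pool.Agent.H13.IEOp.f_neg hns'] at hxf
      exact hxf.2 rfl
    obtain ⟨B, hB, hBK⟩ := hKs
    have hKB : K = B := by
      apply Set.Subset.antisymm _ hBK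
      intro a ha
      by_contra haB
      have hs : Pool.Agent.H13.IEOp.Span Z (K \ {a}) :=
        ⟨B, hB, fun x hx => ⟨hBK hx, by rintro rfl; exact haB hx⟩⟩
      have := (key K).1 hK.prop.1 a ha
      rw [Pool.Agent.H13.IEOp.f_pos hs] at this
      exact this (Set.mem_univ _)
    rw [hKB] at hJK
    exact Pool.Agent.H13.IEOp.no_between hZ hB hJK (hKB ▸ hK.prop.2)

end Pool.Agent.Results.MP_766cb7_co.NotBMatroid
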